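import Pool.Agent.TH231.DFM.Stmts

/-!
# Negative moments of the SK partition function: piece EF1
-/

set_option autoImplicit false

open MeasureTheory ProbabilityTheory Filter Topology

namespace Pool.TH895.DFM

open Pool.TH231.DFM

lemma ip_uk (β : ℝ) (N k : ℕ) (x y : Fin k → Fin N → Fin 2) :
    ip (uk β N k x) (uk β N k y) = ∑ a, ∑ b, ip (uu β N (x a)) (uu β N (y b)) := by
  simp only [ip, uk, Finset.sum_mul_sum]
  rw [Finset.sum_comm]
  refine Finset.sum_congr rfl fun a _ => ?_
  rw [Finset.sum_comm]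

lemma ip_uB (β : ℝ) (N k : ℕ) {r : ℝ} (hr0 : 0 ≤ r) (hr1 : r ≤ 1) (x y : Fin k → Fin N → Fin 2) :
    ip (uB β N k r x) (uB β N k r y) = r ^ 2 * ip (uk β N k x) (uk β N k y) +
      (1 - r ^ 2) * ∑ a, ip (uu β N (x a)) (uu β N (y a)) := by
  have hs : √(1 - r ^ 2) * √(1 - r ^ 2) = 1 - r ^ 2 :=
    Real.mul_self_sqrt (by nlinarith)
  unfold ip
  rw [Fintype.sum_prod_type, Fintype.sum_option]
  congr 1
  · rw [Finset.mul_sum]
    refine Finset.sum_congr rfl fun c _ => ?_
    simp only [uB, uk]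
    ring
  · rw [Finset.mul_sum]
    refine Finset.sum_congr rfl fun a _ => ?_
    rw [Finset.mul_sum]
    refine Finset.sum_congr rfl fun c _ => ?_
    simp only [uB]
    linear_combination (uu β N (x a) c * uu β N (y a) c) * hs

lemma LZ_const {S κ : Type} [Fintype S] [Nonempty S] [Fintype κ] (u : S → κ → ℝ) (w : S → ℝ)
    (c : ℝ) (g : κ → ℝ) : LZ u (fun x => w x + c) g = LZ u w g + c := by
  unfold LZ
  have h : ∑ x, Real.exp (ip g (u x) + (w x + c)) =
      Real.exp c * ∑ x, Real.exp (ip g (u x) + w x) := by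
    rw [Finset.mul_sum]
    refine Finset.sum_congr rfl fun x _ => ?_
    rw [← Real.exp_add]
    congr 1
    ring
  rw [h, Real.log_mul (Real.exp_ne_zero _)
    (Finset.sum_pos (fun x _ => Real.exp_pos _) Finset.univ_nonempty).ne', Real.log_exp, add_comm]

instance {κ : Type} [Fintype κ] : IsProbabilityMeasure (gam κ) := by
  unfold gam; infer_instance

theorem t_EF1 (hINT : St_INT) (hCMP : St_CMP) (hCOV : St_COV) : St_EF1 := by
  intro β r N k hN hk hr0 hr1
  have hk0 : (k : ℝ) ≠ 0 := by positivity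
  set w : (Fin k → Fin N → Fin 2) → ℝ := fun x => -(N * pen N k x) with hw
  set K : ℝ := k ^ 2 * β ^ 2 * N * (1 - r ^ 2) / 4 with hK
  have hr2 : 0 ≤ 1 - r ^ 2 := by nlinarith
  have hcmp := hCMP (Fin k → Fin N → Fin 2) (Option (Fin k) × (Fin N × Fin N)) (Fin N × Fin N)
    (uB β N k r) (uk β N k) w (fun x => w x + K) (by
      intro x y
      rw [ip_uB β N k hr0 hr1, ip_uB β N k hr0 hr1]
      have ht : ∀ a b : Fin k, -(β ^ 2 * N / 2) ≤
          ip (uu β N (x a)) (uu β N (x b)) - ip (uu β N (x a)) (uu β N (y b)) := by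
        intro a b
        rw [(hCOV β N hN (x a) (x b)).1, (hCOV β N hN (x a) (y b)).1]
        have h1 : RR N (x a) (y b) ^ 2 ≤ 1 := by
          have := (hCOV β N hN (x a) (y b)).2.1
          rw [← sq_abs]
          nlinarith [abs_nonneg (RR N (x a) (y b))]
        have h2 : 0 ≤ RR N (x a) (x b) ^ 2 := sq_nonneg _
        have h3 : 0 ≤ β ^ 2 * N := by positivity
        nlinarith [mul_le_mul_of_nonneg_left h1 h3, mul_nonneg h3 h2]
      set t : Fin k → Fin k → ℝ := fun a b =>
        ip (uu β N (x a)) (uu β N (x b)) - ip (uu β N (x a)) (uu β N (y b)) with htdef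
      have hsum : (∑ a, ∑ b, t a b) - ∑ a, t a a =
          (ip (uk β N k x) (uk β N k x) - ip (uk β N k x) (uk β N k y)) -
          ((∑ a, ip (uu β N (x a)) (uu β N (x a))) - ∑ a, ip (uu β N (x a)) (uu β N (y a))) := by
        rw [ip_uk, ip_uk]
        simp only [htdef, Finset.sum_sub_distrib]
      have hlow : -(k ^ 2 * β ^ 2 * N / 2) ≤ (∑ a, ∑ b, t a b) - ∑ a, t a a := by
        rw [← Finset.sum_sub_distrib]
        have h1 : ∀ a : Fin k, -(k * (β ^ 2 * N / 2)) ≤ (∑ b, t a b) - t a a := by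
          intro a
          rw [← Finset.sum_erase_eq_sub (Finset.mem_univ a)]
          have h2 : ∑ b ∈ Finset.univ.erase a, (-(β ^ 2 * N / 2)) ≤
              ∑ b ∈ Finset.univ.erase a, t a b := Finset.sum_le_sum fun b _ => ht a b
          rw [Finset.sum_const, Finset.card_erase_of_mem (Finset.mem_univ a), Finset.card_univ,
            Fintype.card_fin, nsmul_eq_mul, Nat.cast_sub hk] at h2
          have h3 : 0 ≤ β ^ 2 * N / 2 := by positivity
          push_cast at h2
          nlinarith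
        have h2 : ∑ a : Fin k, (-(k * (β ^ 2 * N / 2)) : ℝ) ≤ ∑ a, ((∑ b, t a b) - t a a) :=
          Finset.sum_le_sum fun a _ => h1 a
        rw [Finset.sum_const, Finset.card_univ, Fintype.card_fin, nsmul_eq_mul] at h2
        calc -(k ^ 2 * β ^ 2 * N / 2) = (k : ℝ) * (-(k * (β ^ 2 * N / 2))) := by ring
          _ ≤ _ := h2
      rw [hsum] at hlow
      have h5 := mul_le_mul_of_nonneg_left hlow hr2
      rw [hK]
      nlinarith)
  have hI := (hINT (Fin k → Fin N → Fin 2) (Fin N × Fin N) (uk β N k) w).2.1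
  have h1 : EE (LZ (uk β N k) (fun x => w x + K)) = EE (LZ (uk β N k) w) + K := by
    unfold EE
    simp only [LZ_const]
    rw [integral_add hI (integrable_const _), integral_const]
    simp
  have h2 : (k : ℝ) * EE (FF β N k) = EE (LZ (uk β N k) w) := by
    unfold EE
    have : (fun g => FF β N k g) = fun g => LZ (uk β N k) w g / k := rfl
    rw [this, integral_div]
    field_simp
  rw [h2]
  rw [h1] at hcmp
  exact hcmp

end Pool.TH895.DFM
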